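import Mathlib
import Pool.Agent.P.MP_5e147a_al.H31.Hall

set_option autoImplicit false

namespace Pool.Agent.Results.MP_5e147a_al.HallUniversal

/-- `U` is countable and locally finite, every finite group embeds in `U`, and every isomorphism
between finite subgroups of `U` is the restriction of an inner automorphism. -/
def IsHall (U : Type) [Group U] : Prop :=
  Countable U ∧
    (∀ s : Finset U, ((Subgroup.closure (s : Set U) : Subgroup U) : Set U).Finite) ∧
    (∀ (H : Type) [Group H] [Finite H], ∃ f : H →* U, Function.Injective f) ∧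
    ∀ H K : Subgroup U, Finite H → ∀ φ : H ≃* K, ∃ u : U, ∀ h : H, (φ h : U) = u * h * u⁻¹

theorem result :
    (∃ (U : Type) (_ : Group U), IsHall U) ∧
      ∀ (U : Type) [Group U], IsHall U →
        (∀ n : ℕ, 0 < n → ∃ g : U, orderOf g = n) ∧
          ∀ p q : ℕ, p.Prime → q.Prime → p ≠ q →
            ∃ P Q : Subgroup U, IsPGroup p P ∧ IsPGroup q Q ∧
              ∀ g : U, ∃ a ∈ P, ∃ b ∈ Q, g = a * b := by
  refine ⟨Pool.Agent.P.MP_5e147a_al.H31.exists_hall, fun U _ h => ⟨fun n _ => ?_,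
    fun p q hp hq hne => Pool.Agent.P.MP_5e147a_al.H31.factor h.1 h.2.1 h.2.2.1 h.2.2.2 hp hq hne⟩⟩
  have : NeZero n := ⟨by omega⟩
  obtain ⟨f, hf⟩ := h.2.2.1 (Multiplicative (ZMod n))
  exact ⟨f (Multiplicative.ofAdd 1), (orderOf_injective f hf _).trans
    ((orderOf_ofAdd_eq_addOrderOf (1 : ZMod n)).trans (ZMod.addOrderOf_one n))⟩

end Pool.Agent.Results.MP_5e147a_al.HallUniversal
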